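import Pool.Agent.Q170.UZ.StmN

set_option autoImplicit false

namespace Pool.Agent.Q26.UZ

open Pool.Agent.Q170.UZ

theorem pig (n r : ℕ) (cls : Fin n → Option (Fin r)) (h : r + 2 ≤ n) (e : Fin n)
    (he : ∀ i, i ≠ e → cls i ≠ none) :
    ∃ j l c, j ≠ l ∧ j ≠ e ∧ l ≠ e ∧ cls j = some c ∧ cls l = some c := by
  classical
  have hcard : (Finset.univ.image (some : Fin r → Option (Fin r))).card <
      (Finset.univ.erase e).card := by
    rw [Finset.card_erase_of_mem (Finset.mem_univ e),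
      Finset.card_image_of_injective _ (Option.some_injective _)]
    simp only [Finset.card_univ, Fintype.card_fin]
    omega
  have hmaps : ∀ i ∈ (Finset.univ.erase e), cls i ∈
      (Finset.univ.image (some : Fin r → Option (Fin r))) := by
    intro i hi
    obtain ⟨c, hc⟩ := Option.ne_none_iff_exists'.1 (he i (Finset.ne_of_mem_erase hi))
    rw [hc]
    simp
  obtain ⟨j, hj, l, hl, hjl, hh⟩ := Finset.exists_ne_map_eq_of_card_lt_of_maps_to hcard hmaps
  obtain ⟨c, hc⟩ := Option.ne_none_iff_exists'.1 (he j (Finset.ne_of_mem_erase hj))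
  exact ⟨j, l, c, hjl, Finset.ne_of_mem_erase hj, Finset.ne_of_mem_erase hl, hc, by rw [← hh, hc]⟩

/-- Block COMB -/
theorem t_COMB : S_COMB := by
  intro n r cls hn I₁ I₂ hI b₁ b₂ b₃ u₁ u₂ u₃ hnone c₁ c₂ H2 H3 H3' H4
  -- the pair at the first place
  have key₁ : ∃ j l c, j ≠ l ∧ cls j = some c ∧ cls l = some c ∧ ¬ b₁ j ∧ ¬ b₁ l := by
    by_cases hb : ∃ e, b₁ e
    · obtain ⟨e, he⟩ := hb
      obtain ⟨j, l, c, h1, h2, h3, h4, h5⟩ := pig n r cls hn e
        (fun i hi h0 => hi (u₁ _ _ (hnone i h0).1 he))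
      exact ⟨j, l, c, h1, h4, h5, fun h => h2 (u₁ _ _ h he), fun h => h3 (u₁ _ _ h he)⟩
    · push Not at hb
      obtain ⟨j, l, c, h1, h2, h3, h4, h5⟩ := pig n r cls hn ⟨0, by omega⟩
        (fun i hi h0 => hb i (hnone i h0).1)
      exact ⟨j, l, c, h1, h4, h5, hb _, hb _⟩
  obtain ⟨j, l, c, hjl, hj, hl, hbj, hbl⟩ := key₁
  have Ijl : I₁ j l := c₁ j l c hjl hj hl hbj hbl
  have Ilj : I₁ l j := c₁ l j c hjl.symm hl hj hbl hbj
  -- no constant coordinate
  have hno : ∀ i, cls i ≠ none := by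
    intro i hi
    have hji : j ≠ i := by rintro rfl; rw [hi] at hj; exact absurd hj (by simp)
    have hli : l ≠ i := by rintro rfl; rw [hi] at hl; exact absurd hl (by simp)
    exact H2 i j l (hnone i hi).2.1 hjl hji hli Ijl
  by_cases hb2 : ∃ b, b₂ b
  · obtain ⟨b, hb⟩ := hb2
    obtain ⟨j', l', c', h1, h2, h3, h4, h5⟩ := pig n r cls hn b (fun i _ => hno i)
    have nj : ¬ b₂ j' := fun h => h2 (u₂ _ _ h hb)
    have nl : ¬ b₂ l' := fun h => h3 (u₂ _ _ h hb)
    have I' : I₂ j' l' := c₂ j' l' c' h1 h4 h5 nj nl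
    have I'' : I₂ l' j' := c₂ l' j' c' h1.symm h5 h4 nl nj
    have hbjl : j = b ∨ l = b := by
      by_contra hcon
      push Not at hcon
      exact H2 b j l hb hjl hcon.1 hcon.2 Ijl
    by_cases hb3 : ∃ a, b₃ a
    · obtain ⟨a, ha⟩ := hb3
      have ha1 : j = a ∨ l = a := by
        by_contra hcon
        push Not at hcon
        exact H3 a j l ha hjl hcon.1 hcon.2 (hI _ _ Ijl)
      have ha2 : j' = a ∨ l' = a := by
        by_contra hcon
        push Not at hcon
        exact H3 a j' l' ha h1 hcon.1 hcon.2 I'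
      have hab : a ≠ b := by
        rcases ha2 with rfl | rfl
        · exact h2
        · exact h3
      -- `I₂ b a`
      have Iba : I₂ b a := by
        rcases hbjl with rfl | rfl
        · rcases ha1 with rfl | rfl
          · exact absurd rfl hab
          · exact hI _ _ Ijl
        · rcases ha1 with rfl | rfl
          · exact hI _ _ Ilj
          · exact absurd rfl hab
      rcases ha2 with rfl | rfl
      · exact H3' j' b l' ha h3.symm hab.symm h1.symm Iba I''
      · exact H3' l' b j' ha h2.symm hab.symm h1 Iba I'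
    · push Not at hb3
      rcases H4 hb3 j l j' l' hjl h1 (hI _ _ Ijl) I' with ⟨e1, e2⟩ | ⟨e1, e2⟩
      · rcases hbjl with rfl | rfl
        · exact h2 e1.symm
        · exact h3 e2.symm
      · rcases hbjl with rfl | rfl
        · exact h3 e1.symm
        · exact h2 e2.symm
  · push Not at hb2
    have all2 : ∀ j l c, j ≠ l → cls j = some c → cls l = some c → I₂ j l :=
      fun j l c h1 h2 h3 => c₂ j l c h1 h2 h3 (hb2 _) (hb2 _)
    by_cases hb3 : ∃ a, b₃ a
    · obtain ⟨a, ha⟩ := hb3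
      obtain ⟨j', l', c', h1, h2, h3, h4, h5⟩ := pig n r cls hn a (fun i _ => hno i)
      exact H3 a j' l' ha h1 h2 h3 (all2 _ _ _ h1 h4 h5)
    · push Not at hb3
      obtain ⟨j', l', c', h1, h2, h3, h4, h5⟩ := pig n r cls hn j (fun i _ => hno i)
      rcases H4 hb3 j l j' l' hjl h1 (all2 _ _ _ hjl hj hl) (all2 _ _ _ h1 h4 h5) with
        ⟨e1, e2⟩ | ⟨e1, e2⟩
      · exact h2 e1.symm
      · exact h3 e1.symm

end Pool.Agent.Q26.UZ
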