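import Pool.Agent.Q170.UZ.StmN

set_option autoImplicit false

open H294ZP

namespace Pool.Agent.Q26.UZ

open Pool.Agent.Y226 Pool.Agent.Y226.ZG Pool.Agent.Y226.ZM
open Pool.Agent.Q170.UZ

/-- Block REL -/
theorem t_REL : S_REL := by
  intro C _ _ _ _ _ φ ϖ h0 h1 w w' hw hw' G a b ha hb haG hbG x x' z z' hz hz' hx hx' hq
  have hψ : ∀ z, ‖(φ.comp iA) z‖ ≤ 1 := psi_norm φ
  have hϖ : 0 < ‖ϖ‖ := norm_pos_iff.2 h0
  have nx : ‖x‖ = (‖ϖ‖ ^ w)⁻¹ := by rw [hx, norm_div, norm_pow, hz, one_div]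
  have nx' : ‖x'‖ = (‖ϖ‖ ^ w')⁻¹ := by rw [hx', norm_div, norm_pow, hz', one_div]
  have hx1 : 1 < ‖x‖ := by
    rw [nx]; exact (one_lt_inv₀ (pow_pos hϖ _)).2 (pow_lt_one₀ hϖ.le h1 hw.ne')
  have hx1' : 1 < ‖x'‖ := by
    rw [nx']; exact (one_lt_inv₀ (pow_pos hϖ _)).2 (pow_lt_one₀ hϖ.le h1 hw'.ne')
  set q := qT (φ.comp iA) x with hqd
  set q' := qT (φ.comp iA) x' with hqd'
  have hu : ‖q * x - 1‖ < 1 :=
    (qT_expand' hψ hx1).trans_lt (inv_lt_one_of_one_lt₀ hx1)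
  have hu' : ‖q' * x' - 1‖ < 1 :=
    (qT_expand' hψ hx1').trans_lt (inv_lt_one_of_one_lt₀ hx1')
  have nu : ‖q * x‖ = 1 := neq_one hu norm_one
  have nu' : ‖q' * x'‖ = 1 := neq_one hu' norm_one
  -- the relation
  have e1 : (q' * x') ^ a * x ^ b = (q * x) ^ b * x' ^ a := by
    rw [mul_pow, mul_pow, hq]; ring
  have e2 : w * b = w' * a := by
    have h2 := congrArg (fun t => ‖t‖) e1
    simp only [norm_mul, norm_pow] at h2
    rw [← norm_mul, ← norm_mul, nu, nu', one_pow, one_pow, one_mul, one_mul, nx, nx', inv_pow,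
      inv_pow, inv_inj, ← pow_mul, ← pow_mul] at h2
    exact (pow_right_injective₀ hϖ h1.ne) h2
  have e3 : (q' * x') ^ a * z ^ b = (q * x) ^ b * z' ^ a := by
    have h2 := e1
    have hx2 : x ^ b = z ^ b / ϖ ^ (w * b) := by rw [hx, div_pow, ← pow_mul]
    have hx2' : x' ^ a = z' ^ a / ϖ ^ (w' * a) := by rw [hx', div_pow, ← pow_mul]
    rw [hx2, hx2', ← e2] at h2
    have hne : ϖ ^ (w * b) ≠ 0 := pow_ne_zero _ h0
    rw [← mul_div_assoc, ← mul_div_assoc, div_left_inj' hne] at h2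
    exact h2
  have pu : ‖(q * x) ^ b - 1‖ < 1 := by
    refine lt_of_le_of_lt ?_ hu
    have := npow_sub_pow nu.le (norm_one (α := C)).le (le_refl ‖q * x - 1‖) b
    rwa [one_pow] at this
  have pu' : ‖(q' * x') ^ a - 1‖ < 1 := by
    refine lt_of_le_of_lt ?_ hu'
    have := npow_sub_pow nu'.le (norm_one (α := C)).le (le_refl ‖q' * x' - 1‖) a
    rwa [one_pow] at this
  have e4 : ‖z' ^ a - z ^ b‖ < 1 := by
    have h2 : z' ^ a - z ^ b = ((q' * x') ^ a - 1) * z ^ b - ((q * x) ^ b - 1) * z' ^ a := by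
      linear_combination -e3
    rw [h2]
    refine nsub_lt ?_ ?_
    · rw [norm_mul, norm_pow z, hz, one_pow, mul_one]; exact pu'
    · rw [norm_mul, norm_pow z', hz', one_pow, mul_one]; exact pu
  obtain ⟨k, hk⟩ := Nat.dvd_factorial ha haG
  have f1 : w * G.factorial = a * (w * k) := by rw [hk]; ring
  have f2 : w' * G.factorial = b * (w * k) := by
    rw [hk, ← mul_assoc, ← e2]; ring
  rw [f1, f2, pow_mul z' a (w * k), pow_mul z b (w * k)]
  refine lt_of_le_of_lt ?_ e4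
  exact npow_sub_pow (npow_le hz'.le _) (npow_le hz.le _) le_rfl _

end Pool.Agent.Q26.UZ
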